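import Pool.Agent.H43.BZ.Stm4

/-! BZ4-SRATE (helper662 for helper43): the rate criterion at every velocity scale. -/

set_option autoImplicit false

open MeasureTheory Metric Set Filter Topology
open scoped RealInnerProductSpace ENNReal

namespace Pool.Agent.H662.BZ

open Pool.Agent.H43.BZ

/-- the weight at scale `R` is bounded by a multiple of the weight -/
theorem P_smul_le {d : ℕ} {R : ℝ} (hR : 0 < R) (v : E d) :
    P d (R⁻¹ • v) ≤ (max 1 R) ^ (2 * (4 * (d + 3))) * P d v := by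
  set M : ℝ := max 1 R with hM
  have hM1 : 1 ≤ M := le_max_left _ _
  have hMR : R ≤ M := le_max_right _ _
  have hM0 : 0 < M := lt_of_lt_of_le one_pos hM1
  have hn : ‖R⁻¹ • v‖ = R⁻¹ * ‖v‖ := by
    rw [norm_smul, Real.norm_eq_abs, abs_of_pos (inv_pos.2 hR)]
  have hv : ‖v‖ = R * ‖R⁻¹ • v‖ := by
    rw [hn, ← mul_assoc, mul_inv_cancel₀ hR.ne', one_mul]
  have h1 : 1 + ‖v‖ ^ 2 ≤ M ^ 2 * (1 + ‖R⁻¹ • v‖ ^ 2) := by
    have h2 : R ^ 2 ≤ M ^ 2 := pow_le_pow_left₀ hR.le hMR 2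
    have h3 : (1 : ℝ) ≤ M ^ 2 := one_le_pow₀ hM1
    have h4 : ‖v‖ ^ 2 = R ^ 2 * ‖R⁻¹ • v‖ ^ 2 := by rw [hv, mul_pow]
    rw [h4]
    nlinarith [sq_nonneg ‖R⁻¹ • v‖, mul_le_mul_of_nonneg_right h2 (sq_nonneg ‖R⁻¹ • v‖)]
  have h5 : (1 + ‖v‖ ^ 2) ^ (4 * (d + 3)) ≤
      M ^ (2 * (4 * (d + 3))) * (1 + ‖R⁻¹ • v‖ ^ 2) ^ (4 * (d + 3)) := by
    have h6 := pow_le_pow_left₀ (by positivity) h1 (4 * (d + 3))
    rw [mul_pow, ← pow_mul] at h6
    exact h6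
  have h7 : 0 < (1 + ‖v‖ ^ 2) ^ (4 * (d + 3)) := by positivity
  have h8 : 0 < (1 + ‖R⁻¹ • v‖ ^ 2) ^ (4 * (d + 3)) := by positivity
  unfold P
  rw [← div_eq_mul_inv, ← one_div, div_le_div_iff₀ h8 h7, one_mul]
  exact h5

theorem SRATE (hr : S_RATE) (hs : S_SCAL) : S_SRATE := by
  intro d hd s γ K hs0 hs1 hγ hγs hK
  obtain ⟨c, hc, h⟩ := hr d hd s γ K hs0 hs1 hγ hγs hK
  refine ⟨c, hc, ?_⟩
  intro b hb T f hT hf t₀ ht₀ N R hR hN hc'
  have hsol := hs d hd γ b hb.meas T R f hT hR hf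
  set q : ℝ := R ^ ((d : ℝ) + γ - 1) with hq
  have hq0 : 0 < q := Real.rpow_pos_of_pos hR _
  have hqR : q * R = R ^ ((d : ℝ) + γ) := by
    rw [hq]
    nth_rewrite 2 [← Real.rpow_one R]
    rw [← Real.rpow_add hR]
    congr 1
    ring
  have hg : ∀ t x v, scal γ R f (R * t) x v = q * f t x (R • v) := by
    intro t x v
    unfold scal
    rw [mul_div_cancel_left₀ t hR.ne']
  have hRR : ∀ v : E d, R • (R⁻¹ • v) = v := fun v => smul_inv_smul₀ hR.ne' v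
  have hRR' : ∀ v : E d, R⁻¹ • (R • v) = v := fun v => inv_smul_smul₀ hR.ne' v
  have hmem : ∀ a t : ℝ, t ∈ Ico a T → R * t ∈ Ico (R * a) (R * T) := fun a t ht =>
    ⟨mul_le_mul_of_nonneg_left ht.1 hR.le, mul_lt_mul_of_pos_left ht.2 hR⟩
  have hmem0 : ∀ t : ℝ, t ∈ Ico 0 T → R * t ∈ Ico 0 (R * T) := fun t ht => by
    have h1 := hmem 0 t ht
    rw [mul_zero] at h1
    exact h1
  have hstart : ∀ x v, scal γ R f (R * t₀) x v ≤ (q * N) * P d v := by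
    intro x v
    rw [hg, mul_assoc]
    have h1 := hN x (R • v)
    rw [hRR'] at h1
    exact mul_le_mul_of_nonneg_left h1 hq0.le
  have hsmall : (q * N) * (R * T - R * t₀) ≤ c := by
    have h1 : (q * N) * (R * T - R * t₀) = N * (q * R) * (T - t₀) := by ring
    rw [h1, hqR]
    exact hc'
  obtain ⟨h1, B, h2⟩ := h b hb (R * T) (scal γ R f) (mul_pos hR hT) hsol (R * t₀)
    (hmem0 t₀ ht₀) (q * N) hstart hsmall
  constructor
  · intro t ht x v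
    have h3 := h1 (R * t) (hmem t₀ t ht) x (R⁻¹ • v)
    rw [hg, hRR] at h3
    have h4 : q * f t x v ≤ q * (2 * N * P d (R⁻¹ • v)) := by
      calc q * f t x v ≤ 2 * (q * N) * P d (R⁻¹ • v) := h3
        _ = q * (2 * N * P d (R⁻¹ • v)) := by ring
    exact le_of_mul_le_mul_left h4 hq0
  · refine ⟨q⁻¹ * (|B| * (max 1 R) ^ (2 * (4 * (d + 3)))), ?_⟩
    intro t ht x v
    have h3 := h2 (R * t) (hmem0 t ht) x (R⁻¹ • v)
    rw [hg, hRR] at h3
    have hP : 0 ≤ P d (R⁻¹ • v) := by unfold P; positivity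
    have h5 : q * f t x v ≤ |B| * ((max 1 R) ^ (2 * (4 * (d + 3))) * P d v) :=
      h3.trans ((mul_le_mul_of_nonneg_right (le_abs_self B) hP).trans
        (mul_le_mul_of_nonneg_left (P_smul_le hR v) (abs_nonneg B)))
    have h6 : f t x v = q⁻¹ * (q * f t x v) := by
      rw [← mul_assoc, inv_mul_cancel₀ hq0.ne', one_mul]
    rw [h6]
    calc q⁻¹ * (q * f t x v) ≤ q⁻¹ * (|B| * ((max 1 R) ^ (2 * (4 * (d + 3))) * P d v)) :=
          mul_le_mul_of_nonneg_left h5 (inv_nonneg.2 hq0.le)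
      _ = q⁻¹ * (|B| * (max 1 R) ^ (2 * (4 * (d + 3)))) * P d v := by ring

end Pool.Agent.H662.BZ
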